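import Pool.Agent.Lib.MP_0d7657_an.Defs

/-!
Definitions for the characterization of the operators which do not increase the number of non-real
zeros.
-/

set_option autoImplicit false

namespace Pool.Agent.NRZ.Coin

open Polynomial

variable {n : ℕ}

/-- `T` preserves the set of polynomials with fewer than `r` non-real zeros (or maps them
to `0`). For `r = 1` this means that `T` preserves real-rootedness. -/
def Level (r : ℕ) (T : PiN n →ₗ[ℝ] PiN n) : Prop :=
  ∀ p : PiN n, T p ≠ 0 → Zc (p : ℝ[X]) < r → Zc (T p : ℝ[X]) < r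

/-- `T p`, for a polynomial `p` in `π_n` (and `0` for other polynomials). -/
noncomputable def app (T : PiN n →ₗ[ℝ] PiN n) (p : ℝ[X]) : ℝ[X] :=
  open Classical in if h : p ∈ PiN n then (T ⟨p, h⟩ : ℝ[X]) else 0

/-- The rank of `T`. -/
noncomputable def rk (T : PiN n →ₗ[ℝ] PiN n) : ℕ := Module.finrank ℝ (LinearMap.range T)

/-- The tests of order `r`: for all real `y`, all real `b₁, …, b_d` (`d = n + 1 - rank T`), all
`s < rank T - r` and all polynomials `h` of degree at most `r`, the polynomial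
`T[(x - b₁) ⋯ (x - b_d) (x - y)^s h]` is `0` or has fewer than `r` non-real zeros. -/
def Tests (r : ℕ) (T : PiN n →ₗ[ℝ] PiN n) : Prop :=
  ∀ (s : ℕ) (y : ℝ) (B : Multiset ℝ) (h : ℝ[X]), r + s < rk T →
    Multiset.card B + rk T = n + 1 → h.natDegree ≤ r →
    app T ((B.map fun b => X - C b).prod * (X - C y) ^ s * h) ≠ 0 →
    Zc (app T ((B.map fun b => X - C b).prod * (X - C y) ^ s * h)) < r

/-- The matrix of the linear map `π_r → π_r`, `h ↦ T[(x - y)^s h] mod g` (`g` monic of degree
`r + 1`), in the monomial basis. -/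
noncomputable def testMatrix (T : PiN n →ₗ[ℝ] PiN n) (r s : ℕ) (y : ℝ) (g : ℝ[X]) :
    Matrix (Fin (r + 1)) (Fin (r + 1)) ℝ :=
  Matrix.of fun i j => (app T ((X - C y) ^ s * X ^ (j : ℕ)) %ₘ g).coeff i

end Pool.Agent.NRZ.Coin
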