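import Pool.Agent.Lib.MP_0d7657_an.Coin.Nec

/-!
For bijective `T`: the tests in terms of determinants.
-/

set_option autoImplicit false

namespace Pool.Agent.NRZ.Coin

open Polynomial Matrix

variable {n : ℕ}

lemma app_add (T : PiN n →ₗ[ℝ] PiN n) {p q : ℝ[X]} (hp : p ∈ PiN n) (hq : q ∈ PiN n) :
    app T (p + q) = app T p + app T q := by
  rw [app_of_mem T hp, app_of_mem T hq, app_of_mem T ((PiN n).add_mem hp hq)]
  have : (⟨p + q, (PiN n).add_mem hp hq⟩ : PiN n) = ⟨p, hp⟩ + ⟨q, hq⟩ := rfl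
  rw [this, map_add]
  rfl

lemma app_smul (T : PiN n →ₗ[ℝ] PiN n) (c : ℝ) {p : ℝ[X]} (hp : p ∈ PiN n) :
    app T (c • p) = c • app T p := by
  rw [app_of_mem T hp, app_of_mem T ((PiN n).smul_mem c hp)]
  have : (⟨c • p, (PiN n).smul_mem c hp⟩ : PiN n) = c • ⟨p, hp⟩ := rfl
  rw [this, map_smul]
  rfl

lemma app_sum (T : PiN n →ₗ[ℝ] PiN n) {ι : Type*} (S : Finset ι) (c : ι → ℝ) (f : ι → ℝ[X])
    (hf : ∀ i ∈ S, f i ∈ PiN n) :
    app T (∑ i ∈ S, c i • f i) = ∑ i ∈ S, c i • app T (f i) := by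
  classical
  induction S using Finset.induction_on with
  | empty =>
    rw [Finset.sum_empty, Finset.sum_empty, app_of_mem T (PiN n).zero_mem]
    have : (⟨0, (PiN n).zero_mem⟩ : PiN n) = 0 := rfl
    rw [this, map_zero]
    rfl
  | insert a S ha ih =>
    have h1 : ∀ i ∈ S, f i ∈ PiN n := fun i hi => hf i (Finset.mem_insert_of_mem hi)
    have h2 : f a ∈ PiN n := hf a (Finset.mem_insert_self _ _)
    rw [Finset.sum_insert ha, Finset.sum_insert ha,
      app_add T ((PiN n).smul_mem _ h2)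
        ((PiN n).sum_mem fun i hi => (PiN n).smul_mem _ (h1 i hi)), app_smul T _ h2, ih h1]

lemma testMatrix_mulVec (T : PiN n →ₗ[ℝ] PiN n) {r s : ℕ} (hrs : r + s ≤ n) (y : ℝ) (g : ℝ[X])
    (v : Fin (r + 1) → ℝ) (i : Fin (r + 1)) :
    (testMatrix T r s y g *ᵥ v) i =
      (app T ((X - C y) ^ s * ∑ j : Fin (r + 1), v j • X ^ (j : ℕ)) %ₘ g).coeff i := by
  have h1 : (X - C y) ^ s * ∑ j : Fin (r + 1), v j • X ^ (j : ℕ) =
      ∑ j : Fin (r + 1), v j • ((X - C y) ^ s * X ^ (j : ℕ) : ℝ[X]) := by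
    rw [Finset.mul_sum]
    refine Finset.sum_congr rfl fun j _ => ?_
    rw [mul_smul_comm]
  have h2 : ∀ j ∈ (Finset.univ : Finset (Fin (r + 1))),
      ((X - C y) ^ s * X ^ (j : ℕ) : ℝ[X]) ∈ PiN n := by
    intro j _
    refine mem_PiN ((natDegree_mul_le_of_le (m := s) (n := r) ?_ ?_).trans (by omega))
    · refine natDegree_pow_le.trans ?_
      rw [natDegree_X_sub_C, mul_one]
    · rw [natDegree_X_pow]; omega
  rw [h1, app_sum T _ v _ h2]
  have h3 : ∀ w : ℝ[X], w %ₘ g = modByMonicHom g w := fun w => rfl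
  rw [h3, map_sum, finset_sum_coeff, mulVec, dotProduct]
  refine Finset.sum_congr rfl fun j _ => ?_
  rw [map_smul, coeff_smul, testMatrix, of_apply, ← h3, smul_eq_mul, mul_comm]

theorem level_iff_det {r : ℕ} (hr : Odd r) {T : PiN n →ₗ[ℝ] PiN n}
    (hT : Function.Bijective T) : Level r T ↔ ∀ (s : ℕ) (y : ℝ) (g : ℝ[X]), r + s ≤ n →
      g.Monic → g.natDegree = r + 1 → (∀ x : ℝ, g.eval x ≠ 0) →
      (testMatrix T r s y g).det ≠ 0 := by
  have hker : Module.finrank ℝ (LinearMap.ker T) = 0 := by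
    rw [LinearMap.ker_eq_bot.2 hT.1, finrank_bot]
  have hrk : rk T = n + 1 := by
    have := rk_add T
    omega
  constructor
  · intro hL s y g hrs hgm hgd hg0 hdet
    obtain ⟨v, hv0, hv⟩ := exists_mulVec_eq_zero_iff.2 hdet
    set h : ℝ[X] := ∑ j : Fin (r + 1), v j • X ^ (j : ℕ) with hh
    have hco : ∀ i : Fin (r + 1), h.coeff i = v i := by
      intro i
      rw [hh, finset_sum_coeff, Finset.sum_eq_single i]
      · simp
      · intro b _ hb
        have : (i : ℕ) ≠ (b : ℕ) := fun h' => hb (Fin.ext h'.symm)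
        simp [coeff_X_pow, this]
      · intro h'; exact absurd (Finset.mem_univ _) h'
    have hne : h ≠ 0 := by
      intro h0
      apply hv0
      funext i
      rw [← hco i, h0]
      simp
    have hnd : h.natDegree ≤ r := by
      rw [hh]
      refine natDegree_sum_le_of_forall_le _ _ fun j _ => ?_
      refine (natDegree_smul_le _ _).trans ?_
      rw [natDegree_X_pow]; omega
    have hmod : app T ((X - C y) ^ s * h) %ₘ g = 0 := by
      ext k
      rw [coeff_zero]
      rcases Nat.lt_or_ge k (r + 1) with hk | hk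
      · have h1 := congrFun hv ⟨k, hk⟩
        rw [testMatrix_mulVec T hrs] at h1
        exact h1
      · apply coeff_eq_zero_of_degree_lt
        refine (degree_modByMonic_lt _ hgm).trans_le ?_
        rw [degree_eq_natDegree hgm.ne_zero, hgd]
        exact_mod_cast hk
    have hdvd := (modByMonic_eq_zero_iff_dvd hgm).1 hmod
    have hmem : (X - C y) ^ s * h ∈ PiN n := by
      refine mem_PiN ((natDegree_mul_le_of_le (m := s) (n := r) ?_ hnd).trans (by omega))
      refine natDegree_pow_le.trans ?_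
      rw [natDegree_X_sub_C, mul_one]
    have hT0 : app T ((X - C y) ^ s * h) ≠ 0 := by
      rw [app_of_mem T hmem]
      intro h0
      have h1 : T ⟨_, hmem⟩ = 0 := Subtype.ext h0
      have h2 : (⟨_, hmem⟩ : PiN n) = 0 := hT.1 (by rw [h1, map_zero])
      exact mul_ne_zero (pow_ne_zero _ (X_sub_C_ne_zero y)) hne (congrArg Subtype.val h2)
    have h3 := tests_of_level hr hL s y 0 h (by omega) (by simp [hrk]) hnd
    simp only [Multiset.map_zero, Multiset.prod_zero, one_mul] at h3
    have h4 := h3 hT0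
    have h5 := Zc_le_of_dvd hdvd hT0
    have h6 := Zc_add_card_roots hgm.ne_zero
    have h7 : g.roots = 0 := by
      by_contra hne
      obtain ⟨x, hx⟩ := Multiset.exists_mem_of_ne_zero hne
      exact hg0 x (isRoot_of_mem_roots hx)
    rw [h7, Multiset.card_zero] at h6
    omega
  · intro hD
    rcases Nat.lt_or_ge n r with hnr | hnr
    · intro p _ _
      exact ((Zc_le_natDegree _).trans (natDegree_PiN _)).trans_lt hnr
    rcases Nat.eq_or_lt_of_le hnr with hnr | hnr
    · intro p _ _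
      have h1 := (Zc_le_natDegree (T p : ℝ[X])).trans (natDegree_PiN _)
      obtain ⟨t, ht⟩ := even_Zc (T p : ℝ[X])
      obtain ⟨r', hr'⟩ := hr
      omega
    refine level_of_tests hr (by omega) ?_
    intro s y B h hs hB hh hne
    have hB0 : B = 0 := Multiset.card_eq_zero.1 (by omega)
    subst hB0
    simp only [Multiset.map_zero, Multiset.prod_zero, one_mul] at hne ⊢
    by_contra hcon
    push Not at hcon
    obtain ⟨k, hk⟩ : ∃ k, r + 1 = 2 * k := by
      obtain ⟨t, ht⟩ := hr
      exact ⟨t + 1, by omega⟩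
    have hK2 : 2 * k ≤ Zc (app T ((X - C y) ^ s * h)) := by
      obtain ⟨t, ht⟩ := even_Zc (app T ((X - C y) ^ s * h))
      omega
    obtain ⟨g, hgm, hgd, hgn, hgz⟩ := exists_core hne k hK2
    have hroots : ∀ x : ℝ, g.eval x ≠ 0 := by
      intro x hx
      have h1 := Zc_add_card_roots hgm.ne_zero
      have h2 : 0 < Multiset.card g.roots :=
        Multiset.card_pos_iff_exists_mem.2 ⟨x, (mem_roots hgm.ne_zero).2 hx⟩
      omega
    refine hD s y g (by omega) hgm (by omega) hroots ?_
    refine exists_mulVec_eq_zero_iff.1 ⟨fun j => h.coeff j, ?_, ?_⟩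
    · intro h0
      apply hne
      have h1 : h = 0 := by
        ext k
        rw [coeff_zero]
        rcases Nat.lt_or_ge k (r + 1) with hk | hk
        · exact congrFun h0 ⟨k, hk⟩
        · exact coeff_eq_zero_of_natDegree_lt (by omega)
      rw [h1, mul_zero, app_of_mem T (PiN n).zero_mem]
      have : (⟨0, (PiN n).zero_mem⟩ : PiN n) = 0 := rfl
      rw [this, map_zero]
      rfl
    · have h1 : (∑ j : Fin (r + 1), h.coeff j • X ^ (j : ℕ) : ℝ[X]) = h := by
        rw [Fin.sum_univ_eq_sum_range (fun j => h.coeff j • (X : ℝ[X]) ^ j) (r + 1)]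
        conv_rhs => rw [as_sum_range' h (r + 1) (by omega)]
        exact Finset.sum_congr rfl fun j _ => smul_X_eq_monomial
      funext i
      rw [testMatrix_mulVec T (by omega), h1, (modByMonic_eq_zero_iff_dvd hgm).2 hgd]
      simp

end Pool.Agent.NRZ.Coin
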