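import Pool.Agent.Lib.MP_0d7657_an.Coin.Det

/-!
The points `b₁, …, b_d` cannot be dropped from the tests: the operator `f ↦ E`, where
`f(x) = E(x²) + x O(x²)`, on the polynomials of degree at most four.
-/

set_option autoImplicit false

namespace Pool.Agent.NRZ.Coin

open Polynomial

/-- `(v₀, v₁, v₂) ↦ v₀ + v₁ X + v₂ X²`. -/
noncomputable def exI : (Fin 3 → ℝ) →ₗ[ℝ] PiN 4 where
  toFun v := ⟨C (v 0) + C (v 1) * X + C (v 2) * X ^ 2, mem_PiN (by
    compute_degree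
    norm_num)⟩
  map_add' v w := by
    apply Subtype.ext
    simp only [Pi.add_apply, map_add, Submodule.coe_add]
    ring
  map_smul' c v := by
    apply Subtype.ext
    simp only [Pi.smul_apply, smul_eq_mul, map_mul, RingHom.id_apply, Submodule.coe_smul,
      smul_eq_C_mul]
    ring

/-- `p ↦ (p₀, p₂, p₄)`. -/
noncomputable def exP : PiN 4 →ₗ[ℝ] (Fin 3 → ℝ) :=
  LinearMap.pi fun i => (lcoeff ℝ (2 * (i : ℕ))) ∘ₗ (PiN 4).subtype

/-- The operator `f ↦ E`, where `f(x) = E(x²) + x O(x²)`. -/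
noncomputable def exT : PiN 4 →ₗ[ℝ] PiN 4 := exI ∘ₗ exP

lemma coe_exT (p : PiN 4) : (exT p : ℝ[X]) =
    C ((p : ℝ[X]).coeff 0) + C ((p : ℝ[X]).coeff 2) * X + C ((p : ℝ[X]).coeff 4) * X ^ 2 := rfl

lemma exT_of_eq (p : PiN 4) (a b c d e : ℝ)
    (h : (p : ℝ[X]) = C a + C b * X + C c * X ^ 2 + C d * X ^ 3 + C e * X ^ 4) :
    (exT p : ℝ[X]) = C a + C c * X + C e * X ^ 2 := by
  rw [coe_exT, h]
  congr 1
  · congr 1
    · simp
    · simp
  · simp

lemma exI_injective : Function.Injective exI := by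
  intro v w h
  have h1 : (C (v 0) + C (v 1) * X + C (v 2) * X ^ 2 : ℝ[X]) =
      C (w 0) + C (w 1) * X + C (w 2) * X ^ 2 := congrArg Subtype.val h
  have c0 := congrArg (fun p : ℝ[X] => p.coeff 0) h1
  have c1 := congrArg (fun p : ℝ[X] => p.coeff 1) h1
  have c2 := congrArg (fun p : ℝ[X] => p.coeff 2) h1
  simp [coeff_X, coeff_C] at c0 c1 c2
  ext i
  fin_cases i
  · simpa using c0
  · simpa using c1
  · simpa using c2

lemma exP_surjective : LinearMap.range exP = ⊤ := by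
  rw [LinearMap.range_eq_top]
  intro v
  refine ⟨⟨C (v 0) + C (v 1) * X ^ 2 + C (v 2) * X ^ 4, mem_PiN (by
    compute_degree)⟩, ?_⟩
  ext i
  fin_cases i
  · simp [exP, coeff_X_pow]
  · simp [exP, coeff_X_pow]
  · simp [exP, coeff_X_pow]

lemma rk_exT : rk exT = 3 := by
  rw [rk, exT, LinearMap.range_comp, exP_surjective, Submodule.map_top,
    LinearMap.finrank_range_of_inj exI_injective, Module.finrank_fin_fun]

lemma Zc_eq_zero_of_root {p : ℝ[X]} (hd : p.natDegree ≤ 2) {x : ℝ} (hx : p.eval x = 0) :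
    Zc p = 0 := by
  by_cases hp : p = 0
  · subst hp; simp [Zc]
  have h1 := Zc_add_card_roots hp
  have h2 : 0 < Multiset.card p.roots :=
    Multiset.card_pos_iff_exists_mem.2 ⟨x, (mem_roots hp).2 hx⟩
  obtain ⟨t, ht⟩ := even_Zc p
  omega

lemma natDegree_exT (p : PiN 4) : (exT p : ℝ[X]).natDegree ≤ 2 := by
  rw [coe_exT]
  compute_degree

lemma not_nonIncreasing_exT : ¬ NonIncreasing exT := by
  intro h
  have hmem : ((X - C 1) ^ 2 * (X - C (-2)) ^ 2 : ℝ[X]) ∈ PiN 4 := by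
    refine mem_PiN ?_
    refine (natDegree_mul_le_of_le (m := 2) (n := 2) ?_ ?_)
    · refine natDegree_pow_le.trans ?_
      rw [natDegree_X_sub_C]
    · refine natDegree_pow_le.trans ?_
      rw [natDegree_X_sub_C]
  have hexp : ((X - C 1) ^ 2 * (X - C (-2)) ^ 2 : ℝ[X]) =
      C 4 + C (-4) * X + C (-3) * X ^ 2 + C 2 * X ^ 3 + C 1 * X ^ 4 := by
    simp only [map_neg, map_ofNat, map_one]
    ring
  have hT : (exT ⟨_, hmem⟩ : ℝ[X]) = C 4 + C (-3) * X + C 1 * X ^ 2 :=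
    exT_of_eq _ _ _ _ _ _ hexp
  have hp0 : ((X - C 1) ^ 2 * (X - C (-2)) ^ 2 : ℝ[X]) ≠ 0 :=
    mul_ne_zero (pow_ne_zero _ (X_sub_C_ne_zero _)) (pow_ne_zero _ (X_sub_C_ne_zero _))
  have hc2 : (exT ⟨_, hmem⟩ : ℝ[X]).coeff 2 = 1 := by
    rw [hT]; simp [coeff_X, coeff_C]
  have hT0 : (exT ⟨_, hmem⟩ : ℝ[X]) ≠ 0 := by
    intro h0; rw [h0] at hc2; simp at hc2
  have h1 := h ⟨_, hmem⟩ (fun h0 => hp0 (congrArg Subtype.val h0))
    (fun h0 => hT0 (congrArg Subtype.val h0))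
  have h2 : Zc ((X - C 1) ^ 2 * (X - C (-2)) ^ 2 : ℝ[X]) = 0 := by
    have := Zc_prod (Multiset.replicate 2 1 + Multiset.replicate 2 (-2))
    rwa [Multiset.map_add, Multiset.prod_add, Multiset.map_replicate, Multiset.map_replicate,
      Multiset.prod_replicate, Multiset.prod_replicate] at this
  simp only at h1
  rw [h2] at h1
  have h3 := Zc_add_card_roots hT0
  have h4 : (exT ⟨_, hmem⟩ : ℝ[X]).roots = 0 := by
    by_contra hne
    obtain ⟨x, hx⟩ := Multiset.exists_mem_of_ne_zero hne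
    have := isRoot_of_mem_roots hx
    rw [hT, IsRoot] at this
    simp at this
    nlinarith [sq_nonneg (2 * x - 3)]
  have h5 : 2 ≤ (exT ⟨_, hmem⟩ : ℝ[X]).natDegree :=
    le_natDegree_of_ne_zero (by rw [hc2]; norm_num)
  rw [h4, Multiset.card_zero] at h3
  omega

lemma exT_test (r s : ℕ) (y : ℝ) (h : ℝ[X]) (hr : Odd r) (hrs : r + s ≤ 4)
    (hh : h.natDegree ≤ r) (h0 : app exT ((X - C y) ^ s * h) ≠ 0) :
    Zc (app exT ((X - C y) ^ s * h)) < r := by
  have hmem : (X - C y) ^ s * h ∈ PiN 4 := by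
    refine mem_PiN ((natDegree_mul_le_of_le (m := s) (n := r) ?_ hh).trans (by omega))
    refine natDegree_pow_le.trans ?_
    rw [natDegree_X_sub_C, mul_one]
  rw [app_of_mem _ hmem] at h0 ⊢
  have h1 := (Zc_le_natDegree _).trans (natDegree_exT ⟨_, hmem⟩)
  obtain ⟨t, ht⟩ := hr
  rcases Nat.eq_zero_or_pos t with ht0 | ht0
  swap
  · omega
  subst ht0
  have hr1 : r = 1 := by omega
  subst hr1
  suffices hs : Zc (exT ⟨_, hmem⟩ : ℝ[X]) = 0 by omega
  rcases Nat.lt_or_ge s 3 with hs | hs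
  · apply Zc_of_natDegree_le_one
    have hc4 : ((X - C y) ^ s * h : ℝ[X]).coeff 4 = 0 := by
      apply coeff_eq_zero_of_natDegree_lt
      refine lt_of_le_of_lt (natDegree_mul_le_of_le (m := s) (n := 1) ?_ hh) (by omega)
      refine natDegree_pow_le.trans ?_
      rw [natDegree_X_sub_C, mul_one]
    rw [coe_exT]
    simp only [hc4, map_zero, zero_mul, add_zero]
    compute_degree
  · have hs3 : s = 3 := by omega
    subst hs3
    obtain ⟨α, β, rfl⟩ : ∃ α β : ℝ, h = C α * X + C β :=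
      ⟨h.coeff 1, h.coeff 0, eq_X_add_C_of_natDegree_le_one hh⟩
    have hexp : ((X - C y) ^ 3 * (C α * X + C β) : ℝ[X]) =
        C (-(β * y ^ 3)) + C (3 * β * y ^ 2 - α * y ^ 3) * X +
          C (3 * α * y ^ 2 - 3 * β * y) * X ^ 2 + C (β - 3 * α * y) * X ^ 3 + C α * X ^ 4 := by
      simp only [map_neg, map_mul, map_pow, map_sub, map_ofNat]
      ring
    have hT : (exT ⟨_, hmem⟩ : ℝ[X]) =
        C (-(β * y ^ 3)) + C (3 * α * y ^ 2 - 3 * β * y) * X + C α * X ^ 2 :=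
      exT_of_eq _ _ _ _ _ _ hexp
    rcases eq_or_ne α 0 with hα | hα
    · apply Zc_of_natDegree_le_one
      rw [hT, hα]
      simp only [map_zero, zero_mul, add_zero]
      compute_degree
    · set D : ℝ := (3 * α * y ^ 2 - 3 * β * y) ^ 2 - 4 * α * (-(β * y ^ 3)) with hD
      have hD0 : 0 ≤ D := by
        have : D = y ^ 2 * ((3 * (α * y) - 7 / 3 * β) ^ 2 + 32 / 9 * β ^ 2) := by
          rw [hD]; ring
        rw [this]
        positivity
      refine Zc_eq_zero_of_root (natDegree_exT _)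
        (x := (-(3 * α * y ^ 2 - 3 * β * y) + Real.sqrt D) / (2 * α)) ?_
      rw [hT]
      simp only [eval_add, eval_mul, eval_C, eval_X, eval_pow]
      have hsq : Real.sqrt D ^ 2 = D := Real.sq_sqrt hD0
      field_simp
      rw [hD] at hsq
      linear_combination hsq

/-- The `b`'s in the tests cannot be dropped. -/
theorem example_B : ∃ T : PiN 4 →ₗ[ℝ] PiN 4, rk T = 3 ∧ ¬ NonIncreasing T ∧
    (∀ p : PiN 4, T p ≠ 0 → Zc (T p : ℝ[X]) < rk T) ∧
    ∀ (r s : ℕ) (y : ℝ) (h : ℝ[X]), Odd r → r + s ≤ 4 → h.natDegree ≤ r →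
      app T ((X - C y) ^ s * h) ≠ 0 → Zc (app T ((X - C y) ^ s * h)) < r := by
  refine ⟨exT, rk_exT, not_nonIncreasing_exT, ?_, fun r s y h hr hrs hh h0 =>
    exT_test r s y h hr hrs hh h0⟩
  intro p _
  rw [rk_exT]
  exact ((Zc_le_natDegree _).trans (natDegree_exT p)).trans_lt (by norm_num)

end Pool.Agent.NRZ.Coin
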