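import Pool.Agent.Lib.MP_0d7657_an.Coin.Suff

/-!
The tests are necessary, and the final equivalence.
-/

set_option autoImplicit false

namespace Pool.Agent.NRZ.Coin

open Polynomial

/-- In a coset of a space of polynomials of dimension at least `j` there is an element with `j`
prescribed-in-number distinct real zeros (outside of a given finite set). -/
lemma exists_zeros (j : ℕ) : ∀ (N : Submodule ℝ ℝ[X]) (F : Finset ℝ) (p : ℝ[X]),
    j ≤ Module.finrank ℝ N → ∃ Y : Finset ℝ, Y.card = j ∧ (∀ y ∈ Y, y ∉ F) ∧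
      ∃ ν ∈ N, ∀ y ∈ Y, (p + ν).eval y = 0 := by
  induction j with
  | zero =>
    intro N F p _
    exact ⟨∅, rfl, by simp, 0, N.zero_mem, by simp⟩
  | succ j ih =>
    intro N F p hj
    have hfd : FiniteDimensional ℝ N := Module.finite_of_finrank_pos (by omega)
    have hne : N ≠ ⊥ := by
      rintro rfl
      rw [finrank_bot] at hj
      omega
    obtain ⟨ν₁, hν₁, hν0⟩ := Submodule.exists_mem_ne_zero_of_ne_bot hne
    obtain ⟨y, hy⟩ := Infinite.exists_notMem_finset (F ∪ ν₁.roots.toFinset)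
    rw [Finset.mem_union, not_or, Multiset.mem_toFinset, mem_roots hν0] at hy
    have hνy : ν₁.eval y ≠ 0 := hy.2
    let ψ : N →ₗ[ℝ] ℝ := (leval y) ∘ₗ N.subtype
    set N₁ : Submodule ℝ ℝ[X] := (LinearMap.ker ψ).map N.subtype with hN₁
    have h1 : Module.finrank ℝ N₁ = Module.finrank ℝ (LinearMap.ker ψ) :=
      Submodule.finrank_map_subtype_eq _ _
    have h2 := LinearMap.finrank_range_add_finrank_ker ψ
    have h3 : Module.finrank ℝ (LinearMap.range ψ) ≤ 1 :=
      (Submodule.finrank_le _).trans (by rw [Module.finrank_self])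
    obtain ⟨Y, hYc, hYF, ν, hν, hYν⟩ := ih N₁ (insert y F)
      (p + (-(p.eval y) / ν₁.eval y) • ν₁) (by omega)
    obtain ⟨⟨v, hvN⟩, hvk, rfl⟩ := Submodule.mem_map.1 hν
    have hvy : v.eval y = 0 := by
      have := LinearMap.mem_ker.1 hvk
      simpa [ψ] using this
    have hyY : y ∉ Y := fun h => hYF y h (Finset.mem_insert_self _ _)
    refine ⟨insert y Y, ?_, ?_, (-(p.eval y) / ν₁.eval y) • ν₁ + v,
      N.add_mem (N.smul_mem _ hν₁) hvN, ?_⟩
    · rw [Finset.card_insert_of_notMem hyY, hYc]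
    · intro z hz
      rcases Finset.mem_insert.1 hz with rfl | hz
      · exact hy.1
      · exact fun h => hYF z hz (Finset.mem_insert_of_mem h)
    · intro z hz
      rcases Finset.mem_insert.1 hz with rfl | hz
      · rw [eval_add, eval_add, eval_smul, smul_eq_mul, hvy, div_mul_cancel₀ _ hνy]
        ring
      · have := hYν z hz
        rw [← add_assoc]
        exact this

variable {m n : ℕ}

lemma Zc_coe_zero : Zc ((0 : PiN n) : ℝ[X]) = 0 := by simp [Zc]

/-- If `T` preserves the polynomials with fewer than `r` non-real zeros and `r + 1 ≥ rank T`, all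
polynomials in the image have fewer than `r` non-real zeros. -/
lemma nec_im {r : ℕ} (hr : Odd r) (A : PiN m →ₗ[ℝ] PiN n)
    (hA : ∀ p : PiN m, A p ≠ 0 → Zc (p : ℝ[X]) < r → Zc (A p : ℝ[X]) < r)
    (hm : m ≤ r + Module.finrank ℝ (LinearMap.ker A)) (p : PiN m) (hp : A p ≠ 0) :
    Zc (A p : ℝ[X]) < r := by
  obtain ⟨Y, hYc, -, ν, hν, hYν⟩ := exists_zeros (m - r)
    ((LinearMap.ker A).map (PiN m).subtype) ∅ (p : ℝ[X])
    (by rw [Submodule.finrank_map_subtype_eq]; omega)
  obtain ⟨v, hv, rfl⟩ := Submodule.mem_map.1 hν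
  have hAv : A (p + v) = A p := by rw [map_add, LinearMap.mem_ker.1 hv, add_zero]
  have hpv : A (p + v) ≠ 0 := by rw [hAv]; exact hp
  have hpv0 : ((p + v : PiN m) : ℝ[X]) ≠ 0 := by
    intro h
    apply hpv
    have : p + v = 0 := Subtype.ext h
    rw [this, map_zero]
  have h2 := Zc_add_card_roots hpv0
  have h3 := natDegree_PiN (p + v)
  have h4 : Y ⊆ ((p + v : PiN m) : ℝ[X]).roots.toFinset := by
    intro y hy
    rw [Multiset.mem_toFinset, mem_roots hpv0]
    exact hYν y hy
  have h5 := (Finset.card_le_card h4).trans (Multiset.toFinset_card_le _)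
  have h6 : Zc ((p + v : PiN m) : ℝ[X]) < r := by
    obtain ⟨t, ht⟩ := even_Zc ((p + v : PiN m) : ℝ[X])
    obtain ⟨r', hr'⟩ := hr
    omega
  have h1 := hA (p + v) hpv h6
  rwa [hAv] at h1

lemma Zc_prod (B : Multiset ℝ) : Zc (B.map fun b => X - C b).prod = 0 := by
  have h0 : (B.map fun b => X - C b).prod ≠ 0 := (monic_multiset_prod_of_monic _ _
    (fun b _ => monic_X_sub_C b)).ne_zero
  have h1 := Zc_add_card_roots h0
  rw [roots_multiset_prod_X_sub_C, natDegree_multiset_prod_X_sub_C_eq_card] at h1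
  omega

lemma Zc_test_lt {r : ℕ} (hr : Odd r) {B : Multiset ℝ} {s : ℕ} {y : ℝ} {h : ℝ[X]}
    (hh : h.natDegree ≤ r)
    (hp0 : (B.map fun b => X - C b).prod * (X - C y) ^ s * h ≠ 0) :
    Zc ((B.map fun b => X - C b).prod * (X - C y) ^ s * h) < r := by
  have hh0 := right_ne_zero_of_mul hp0
  have hBs := left_ne_zero_of_mul hp0
  have hB := left_ne_zero_of_mul hBs
  have hs := right_ne_zero_of_mul hBs
  have h2 : Zc ((X - C y : ℝ[X]) ^ s) = 0 := by
    have := Zc_prod (Multiset.replicate s y)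
    rwa [Multiset.map_replicate, Multiset.prod_replicate] at this
  rw [Zc_mul hBs hh0, Zc_mul hB hs, Zc_prod, h2]
  have h3 := Zc_le_natDegree h
  obtain ⟨t, ht⟩ := even_Zc h
  obtain ⟨r', hr'⟩ := hr
  omega

lemma natDegree_test {r s : ℕ} {y : ℝ} {B : Multiset ℝ} {h : ℝ[X]} (hh : h.natDegree ≤ r) :
    ((B.map fun b => X - C b).prod * (X - C y) ^ s * h).natDegree ≤ Multiset.card B + s + r := by
  refine natDegree_mul_le_of_le (natDegree_mul_le_of_le ?_ ?_) hh
  · rw [natDegree_multiset_prod_X_sub_C_eq_card]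
  · refine natDegree_pow_le.trans ?_
    rw [natDegree_X_sub_C, mul_one]

lemma app_of_mem (T : PiN n →ₗ[ℝ] PiN n) {p : ℝ[X]} (hp : p ∈ PiN n) :
    app T p = (T ⟨p, hp⟩ : ℝ[X]) := by
  rw [app, dif_pos hp]

lemma rk_add (T : PiN n →ₗ[ℝ] PiN n) :
    rk T + Module.finrank ℝ (LinearMap.ker T) = n + 1 := by
  have := LinearMap.finrank_range_add_finrank_ker T
  rwa [finrank_PiN] at this

/-- The tests of order `r` are necessary. -/
theorem tests_of_level {r : ℕ} (hr : Odd r) {T : PiN n →ₗ[ℝ] PiN n} (hT : Level r T) :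
    Tests r T := by
  intro s y B h hs hB hh hne
  have hd := natDegree_test (s := s) (y := y) (B := B) hh
  have hmem : (B.map fun b => X - C b).prod * (X - C y) ^ s * h ∈ PiN n := mem_PiN (by omega)
  rw [app_of_mem T hmem] at hne ⊢
  have hne' : T ⟨_, hmem⟩ ≠ 0 := fun h0 => hne (by rw [h0]; rfl)
  refine hT _ hne' (Zc_test_lt hr hh ?_)
  intro h0
  apply hne'
  have : (⟨_, hmem⟩ : PiN n) = 0 := Subtype.ext h0
  rw [this, map_zero]

/-- For `r + 2 ≤ rank T` the tests of order `r` are sufficient. -/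
theorem level_of_tests {r : ℕ} (hr : Odd r) {T : PiN n →ₗ[ℝ] PiN n} (hrk : r + 2 ≤ rk T)
    (h : Tests r T) : Level r T := by
  have h0 := rk_add T
  intro p _ hp
  refine level hr (Module.finrank ℝ (LinearMap.ker T)) n T le_rfl (by omega) ?_ p hp
  intro s y B h' q hs hB hh hq hTq
  have hmem : (B.map fun b => X - C b).prod * (X - C y) ^ s * h' ∈ PiN n := by
    rw [← hq]; exact q.2
  have h1 := h s y B h' (by omega) (by omega) hh
  have h2 : (⟨_, hmem⟩ : PiN n) = q := Subtype.ext hq.symm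
  rw [app_of_mem T hmem, h2] at h1
  exact h1 fun h0 => hTq (Subtype.ext h0)

theorem level_iff_tests {r : ℕ} (hr : Odd r) {T : PiN n →ₗ[ℝ] PiN n} (hrk : r + 2 ≤ rk T) :
    Level r T ↔ Tests r T :=
  ⟨tests_of_level hr, level_of_tests hr hrk⟩

theorem level_iff_image {r : ℕ} (hr : Odd r) {T : PiN n →ₗ[ℝ] PiN n} (hrk : rk T ≤ r + 1) :
    Level r T ↔ ∀ p : PiN n, T p ≠ 0 → Zc (T p : ℝ[X]) < r := by
  have h0 := rk_add T
  refine ⟨fun hT => nec_im hr T hT (by omega), fun h p hp _ => h p hp⟩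

theorem nonIncreasing_iff_level {T : PiN n →ₗ[ℝ] PiN n} :
    NonIncreasing T ↔ ∀ r, Odd r → Level r T := by
  constructor
  · intro hT r _ p hp hpr
    exact (hT p (by rintro rfl; exact hp (map_zero _)) hp).trans_lt hpr
  · intro h p _ hp
    have h1 := h (Zc (p : ℝ[X]) + 1) (even_Zc _).add_one p hp (Nat.lt_succ_self _)
    omega

theorem nonIncreasing_iff {T : PiN n →ₗ[ℝ] PiN n} :
    NonIncreasing T ↔ (∀ p : PiN n, T p ≠ 0 → Zc (T p : ℝ[X]) < rk T) ∧
      ∀ r, Odd r → r + 2 ≤ rk T → Tests r T := by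
  rw [nonIncreasing_iff_level]
  constructor
  · intro h
    refine ⟨?_, fun r hr _ => tests_of_level hr (h r hr)⟩
    intro p hp
    rcases Nat.even_or_odd (rk T) with he | ho
    · have hpos : 0 < rk T := by
        by_contra h0
        have h1 : LinearMap.range T = ⊥ := Submodule.finrank_eq_zero.1 (by unfold rk at h0; omega)
        have h2 : T p ∈ LinearMap.range T := LinearMap.mem_range_self T p
        rw [h1] at h2
        exact hp ((Submodule.mem_bot ℝ).1 h2)
      obtain ⟨t, ht⟩ : Odd (rk T - 1) := by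
        obtain ⟨t, ht⟩ := he
        exact ⟨t - 1, by omega⟩
      have := (level_iff_image (T := T) (r := rk T - 1) ⟨t, ht⟩ (by omega)).1
        (h _ ⟨t, ht⟩) p hp
      omega
    · exact (level_iff_image ho (by omega)).1 (h _ ho) p hp
  · rintro ⟨h1, h2⟩ r hr
    rcases Nat.lt_or_ge (r + 1) (rk T) with hlt | hge
    · exact (level_iff_tests hr (by omega)).2 (h2 r hr (by omega))
    · refine (level_iff_image hr hge).2 fun p hp => ?_
      have h3 := h1 p hp
      obtain ⟨t, ht⟩ := even_Zc (T p : ℝ[X])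
      obtain ⟨r', hr'⟩ := hr
      omega

end Pool.Agent.NRZ.Coin
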