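import Pool.Agent.Lib.MP_0d7657_an.Coin.Rolle2

/-!
Polya's method: a space of real polynomials of dimension `l + 1` and degree at most `m`, no non-zero
element of which has `l + 1` zeros of the shape `l + 1 - s` times infinity and `s` times `y`, is a
Chebyshev space on the projective line.
-/

set_option autoImplicit false

namespace Pool.Agent.NRZ.Coin

open Polynomial

lemma natDegree_wr {f u : ℝ[X]} (hf : f ≠ 0) (hlt : f.natDegree < u.natDegree) :
    wr f u ≠ 0 ∧ (wr f u).natDegree + 1 = f.natDegree + u.natDegree := by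
  have hu : u ≠ 0 := by rintro rfl; simp at hlt
  obtain ⟨b, hb⟩ : ∃ b, u.natDegree = b + 1 := ⟨u.natDegree - 1, by omega⟩
  set a := f.natDegree with ha
  have hc : (wr f u).coeff (a + b) = ((b : ℝ) + 1 - a) * (f.leadingCoeff * u.leadingCoeff) := by
    rw [wr_apply, coeff_sub]
    have h1 : (f * derivative u).coeff (a + b) = f.coeff a * (derivative u).coeff b :=
      coeff_mul_add_eq_of_natDegree_le le_rfl (by
        have := natDegree_derivative_le u; omega)
    rw [h1, coeff_derivative]
    have h2 : (derivative f * u).coeff (a + b) = (a : ℝ) * (f.coeff a * u.coeff (b + 1)) := by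
      rcases Nat.eq_zero_or_pos a with h0 | h0
      · have : derivative f = 0 := by
          rw [eq_C_of_natDegree_eq_zero (ha.symm.trans h0)]; simp
        rw [this, h0]; simp
      · obtain ⟨c, hc⟩ : ∃ c, a = c + 1 := ⟨a - 1, by omega⟩
        have h3 : a + b = c + (b + 1) := by omega
        rw [h3, coeff_mul_add_eq_of_natDegree_le (by
          have := natDegree_derivative_le f; omega) (by omega), coeff_derivative, hc]
        push_cast
        ring
    rw [h2, leadingCoeff, leadingCoeff, ← ha, hb]
    ring
  have hne : (wr f u).coeff (a + b) ≠ 0 := by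
    rw [hc]
    refine mul_ne_zero ?_ (mul_ne_zero (leadingCoeff_ne_zero.2 hf) (leadingCoeff_ne_zero.2 hu))
    have : (a : ℝ) < b + 1 := by exact_mod_cast (by omega : a < b + 1)
    linarith
  have hle : (wr f u).natDegree ≤ a + b := by
    have e1 : (f * derivative u).natDegree ≤ a + b := by
      refine natDegree_mul_le_of_le le_rfl ?_
      have := natDegree_derivative_le u; omega
    have e2 : (derivative f * u).natDegree ≤ a + b := by
      rcases Nat.eq_zero_or_pos a with h0 | h0
      · have : derivative f = 0 := by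
          rw [eq_C_of_natDegree_eq_zero (ha.symm.trans h0)]; simp
        rw [this]; simp
      · refine (natDegree_mul_le).trans ?_
        have := natDegree_derivative_le f; omega
    have e3 := natDegree_sub_le_of_le e1 e2
    rwa [max_self] at e3
  refine ⟨?_, ?_⟩
  · rintro h; rw [h] at hne; simp at hne
  · have := le_natDegree_of_ne_zero hne
    omega

lemma pow_succ_dvd_of_wr {f w : ℝ[X]} {y : ℝ} (hf : f.eval y ≠ 0) (hw : wr f w ≠ 0)
    (hy : w.eval y = 0) {s : ℕ} (h : (X - C y) ^ s ∣ wr f w) : (X - C y) ^ (s + 1) ∣ w := by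
  have hw0 : w ≠ 0 := by rintro rfl; simp at hw
  obtain ⟨k, hk⟩ : ∃ k, w.rootMultiplicity y = k + 1 := by
    have : 0 < w.rootMultiplicity y := (rootMultiplicity_pos hw0).2 hy
    exact ⟨w.rootMultiplicity y - 1, by omega⟩
  obtain ⟨v, hv, hnd⟩ := exists_eq_pow_rootMultiplicity_mul_and_not_dvd w hw0 y
  rw [hk] at hv
  have hvy : v.eval y ≠ 0 := fun h0 => hnd (dvd_iff_isRoot.2 h0)
  have h1 : wr f w = (X - C y) ^ k *
      (f * ((C ((k : ℝ) + 1)) * v + (X - C y) * derivative v) - derivative f * ((X - C y) * v)) := by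
    rw [hv, wr_apply, derivative_mul, derivative_X_sub_C_pow]
    push_cast
    rw [map_add, map_one, map_natCast]
    ring
  have h2 : s ≤ k := by
    by_contra hlt
    push Not at hlt
    have h3 : (X - C y) ^ (k + 1) ∣ wr f w := (pow_dvd_pow _ hlt).trans h
    rw [h1, pow_succ] at h3
    have h4 := (mul_dvd_mul_iff_left (pow_ne_zero k (X_sub_C_ne_zero y))).1 h3
    have h5 := dvd_iff_isRoot.1 h4
    rw [IsRoot] at h5
    simp only [eval_sub, eval_mul, eval_add, eval_C, eval_X, sub_self, zero_mul, add_zero,
      mul_zero, sub_zero] at h5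
    have h6 : ((k : ℝ) + 1) ≠ 0 := by positivity
    exact (mul_ne_zero hf (mul_ne_zero h6 hvy)) h5
  calc (X - C y) ^ (s + 1) ∣ (X - C y) ^ (k + 1) := pow_dvd_pow _ (by omega)
    _ ∣ w := ⟨v, hv⟩

theorem polya (l : ℕ) : ∀ (m : ℕ) (U : Submodule ℝ ℝ[X]), l ≤ m → (∀ u ∈ U, u.natDegree ≤ m) →
    l + 1 ≤ Module.finrank ℝ U →
    (∀ (s : ℕ) (y : ℝ), s ≤ l + 1 → ∀ u ∈ U, u ≠ 0 → u.natDegree + l + 1 ≤ m + s →
      ¬ (X - C y) ^ s ∣ u) →
    ∀ u ∈ U, u ≠ 0 → m + Multiset.card u.roots ≤ l + u.natDegree := by
  induction l with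
  | zero =>
    intro m U _ hdeg _ htest u hu hu0
    have h1 := hdeg u hu
    have h2 : ¬ (u.natDegree + 0 + 1 ≤ m + 0) := fun h =>
      htest 0 0 (by omega) u hu hu0 h (by simp)
    have h3 : u.roots = 0 := by
      by_contra hne
      obtain ⟨x, hx⟩ := Multiset.exists_mem_of_ne_zero hne
      exact htest 1 x (by omega) u hu hu0 (by omega)
        (by rw [pow_one]; exact dvd_iff_isRoot.2 (isRoot_of_mem_roots hx))
    rw [h3]
    simp only [Multiset.card_zero]
    omega
  | succ l ih =>
    intro m U hlm hdeg hdim htest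
    have hfd : FiniteDimensional ℝ U := Module.finite_of_finrank_pos (by omega)
    -- the element of highest order at infinity
    obtain ⟨f, hfU, hf0, hfd1⟩ : ∃ f ∈ U, f ≠ 0 ∧ f.natDegree + (l + 1) ≤ m := by
      let φ : U →ₗ[ℝ] (Fin (l + 1) → ℝ) :=
        LinearMap.pi fun i => (lcoeff ℝ (m - i)) ∘ₗ U.subtype
      have hker : LinearMap.ker φ ≠ ⊥ := by
        apply LinearMap.ker_ne_bot_of_finrank_lt
        simp only [Module.finrank_fin_fun]
        omega
      obtain ⟨⟨f, hfU⟩, hfk, hf0⟩ := Submodule.exists_mem_ne_zero_of_ne_bot hker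
      refine ⟨f, hfU, fun h => hf0 (by simp [h]), ?_⟩
      have hco : ∀ i : ℕ, i < l + 1 → f.coeff (m - i) = 0 := by
        intro i hi
        have := congrFun (LinearMap.mem_ker.1 hfk) ⟨i, hi⟩
        simpa [φ] using this
      have h1 : f.natDegree ≤ m - (l + 1) := by
        rw [natDegree_le_iff_coeff_eq_zero]
        intro k hk
        rcases Nat.lt_or_ge m k with h | h
        · exact coeff_eq_zero_of_natDegree_lt (lt_of_le_of_lt (hdeg f hfU) h)
        · have := hco (m - k) (by omega)
          rwa [Nat.sub_sub_self h] at this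
      omega
    have hlow : ∀ u ∈ U, u ≠ 0 → m ≤ u.natDegree + (l + 1) := by
      intro u hu hu0
      by_contra hcon
      push Not at hcon
      exact htest 0 0 (by omega) u hu hu0 (by omega) (by simp)
    have hfd2 : f.natDegree + (l + 1) = m := le_antisymm hfd1 (hlow f hfU hf0)
    have hfr : ∀ x, f.eval x ≠ 0 := by
      intro x hx
      exact htest 1 x (by omega) f hfU hf0 (by omega)
        (by rw [pow_one]; exact dvd_iff_isRoot.2 hx)
    have hcase : ∀ u ∈ U, f.natDegree < u.natDegree ∨ ∃ c : ℝ, u = c • f := by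
      intro u hu
      rcases Nat.lt_or_ge f.natDegree u.natDegree with h | h
      · exact Or.inl h
      · right
        refine ⟨u.coeff f.natDegree / f.leadingCoeff, ?_⟩
        by_contra hne
        set w := u - (u.coeff f.natDegree / f.leadingCoeff) • f with hw
        have hwU : w ∈ U := U.sub_mem hu (U.smul_mem _ hfU)
        have hw0 : w ≠ 0 := sub_ne_zero.2 hne
        have hwd : w.natDegree ≤ f.natDegree := by
          have e3 := natDegree_sub_le_of_le h
            (natDegree_smul_le (u.coeff f.natDegree / f.leadingCoeff) f)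
          rwa [max_self] at e3
        have hwc : w.coeff f.natDegree = 0 := by
          rw [hw, coeff_sub, coeff_smul, smul_eq_mul, coeff_natDegree,
            div_mul_cancel₀ _ (leadingCoeff_ne_zero.2 hf0), sub_self]
        have h1 := hlow w hwU hw0
        have h2 : w.natDegree = f.natDegree := by omega
        rw [← h2, coeff_natDegree] at hwc
        exact hw0 (leadingCoeff_eq_zero.1 hwc)
    obtain ⟨m', hm'⟩ : ∃ m', m' + 1 = f.natDegree + m := ⟨f.natDegree + m - 1, by omega⟩
    -- the space of Wronskians
    have hV := ih m' (U.map (wr f)) (by omega) ?_ ?_ ?_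
    · intro u hu hu0
      rcases hcase u hu with h | ⟨c, rfl⟩
      · obtain ⟨h1, h2⟩ := natDegree_wr hf0 h
        have h3 := hV (wr f u) (Submodule.mem_map_of_mem hu) h1
        have h4 := card_roots_le_wr hfr h1
        omega
      · have hc : c ≠ 0 := by rintro rfl; simp at hu0
        have h5 : (c • f).roots = 0 := by
          by_contra hne
          obtain ⟨x, hx⟩ := Multiset.exists_mem_of_ne_zero hne
          have := isRoot_of_mem_roots hx
          rw [IsRoot, eval_smul, smul_eq_mul] at this
          exact mul_ne_zero hc (hfr x) this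
        rw [h5, smul_eq_C_mul, natDegree_C_mul hc]
        simp only [Multiset.card_zero]
        omega
    · rintro v ⟨u, hu, rfl⟩
      rcases hcase u hu with h | ⟨c, rfl⟩
      · obtain ⟨h1, h2⟩ := natDegree_wr hf0 h
        have h3 := hdeg u hu
        omega
      · rw [map_smul, wr_self]; simp
    · have h1 := LinearMap.finrank_range_add_finrank_ker ((wr f).domRestrict U)
      have h2 : LinearMap.range ((wr f).domRestrict U) = U.map (wr f) := by
        rw [LinearMap.range_domRestrict]
      have h3 : Module.finrank ℝ (LinearMap.ker ((wr f).domRestrict U)) ≤ 1 := by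
        have h4 : LinearMap.ker ((wr f).domRestrict U) ≤ Submodule.span ℝ {(⟨f, hfU⟩ : U)} := by
          rintro ⟨u, hu⟩ hk
          rw [LinearMap.mem_ker, LinearMap.domRestrict_apply] at hk
          rcases hcase u hu with h | ⟨c, hc⟩
          · exact absurd hk (natDegree_wr hf0 h).1
          · exact Submodule.mem_span_singleton.2 ⟨c, Subtype.ext hc.symm⟩
        calc Module.finrank ℝ (LinearMap.ker ((wr f).domRestrict U))
            ≤ Module.finrank ℝ (Submodule.span ℝ {(⟨f, hfU⟩ : U)}) := Submodule.finrank_mono h4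
          _ = 1 := finrank_span_singleton (fun h0 => hf0 (congrArg Subtype.val h0))
      rw [h2] at h1
      omega
    · rintro s y hs v ⟨u, hu, rfl⟩ hv0 hvd hdvd
      rcases hcase u hu with h | ⟨c, rfl⟩
      · obtain ⟨h1, h2⟩ := natDegree_wr hf0 h
        set c := u.eval y / f.eval y with hc
        set w := u - c • f with hw
        have hwU : w ∈ U := U.sub_mem hu (U.smul_mem _ hfU)
        have hww : wr f w = wr f u := by rw [hw, map_sub, map_smul, wr_self]; simp
        have hwy : w.eval y = 0 := by
          rw [hw, eval_sub, eval_smul, smul_eq_mul, hc, div_mul_cancel₀ _ (hfr y), sub_self]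
        have hw0 : w ≠ 0 := by
          intro h0; rw [← hww, h0, map_zero] at h1; exact h1 rfl
        have hdv := pow_succ_dvd_of_wr (hfr y) (by rw [hww]; exact h1) hwy
          (by rw [hww]; exact hdvd)
        have hwd : w.natDegree ≤ u.natDegree := by
          have e3 := natDegree_sub_le_of_le (le_refl u.natDegree)
            ((natDegree_smul_le c f).trans h.le)
          rwa [max_self] at e3
        exact htest (s + 1) y (by omega) w hwU hw0 (by omega) hdv
      · rw [map_smul, wr_self] at hv0; simp at hv0

end Pool.Agent.NRZ.Coin
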