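import Mathlib

/-!
Rolle's theorem for the Wronskian `W(f, u) = f u' - f' u` of real polynomials, where `f` has no
real zeros.
-/

set_option autoImplicit false

namespace Pool.Agent.NRZ.Coin

open Polynomial

/-- The Wronskian `W(f, u) = f u' - f' u`, as a linear map in `u`. -/
noncomputable def wr (f : ℝ[X]) : ℝ[X] →ₗ[ℝ] ℝ[X] :=
  LinearMap.mulLeft ℝ f ∘ₗ derivative - LinearMap.mulLeft ℝ (derivative f)

lemma wr_apply (f u : ℝ[X]) : wr f u = f * derivative u - derivative f * u := rfl

lemma wr_self (f : ℝ[X]) : wr f f = 0 := by rw [wr_apply]; ring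

lemma pow_dvd_wr {f u : ℝ[X]} {x : ℝ} {k : ℕ} (h : (X - C x) ^ (k + 1) ∣ u) :
    (X - C x) ^ k ∣ wr f u := by
  obtain ⟨v, rfl⟩ := h
  refine ⟨f * ((C ((k : ℝ) + 1)) * v + (X - C x) * derivative v) - derivative f * ((X - C x) * v), ?_⟩
  rw [wr_apply, derivative_mul, derivative_X_sub_C_pow]
  push_cast
  rw [map_add, map_one, map_natCast]
  ring

lemma wr_rootMultiplicity {f u : ℝ[X]} (hu : u ≠ 0) (hw : wr f u ≠ 0) (x : ℝ) :
    u.rootMultiplicity x - 1 ≤ (wr f u).rootMultiplicity x := by
  rcases Nat.eq_zero_or_pos (u.rootMultiplicity x) with h | h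
  · omega
  · rw [le_rootMultiplicity_iff hw]
    apply pow_dvd_wr
    rw [← le_rootMultiplicity_iff hu]
    omega

lemma card_toFinset_le_wr {f u : ℝ[X]} (hf : ∀ x, f.eval x ≠ 0) (hw : wr f u ≠ 0) :
    u.roots.toFinset.card ≤ ((wr f u).roots.toFinset \ u.roots.toFinset).card + 1 := by
  have hp : u ≠ 0 := by rintro rfl; simp at hw
  refine Finset.card_le_sdiff_of_interleaved fun x hx y hy hxy hxy' => ?_
  rw [Multiset.mem_toFinset, mem_roots hp] at hx hy
  have hc : ContinuousOn (fun t => u.eval t / f.eval t) (Set.Icc x y) := by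
    apply ContinuousOn.div u.continuousOn f.continuousOn
    intro t _; exact hf t
  have hxy2 : (fun t => u.eval t / f.eval t) x = (fun t => u.eval t / f.eval t) y := by
    simp only [IsRoot.def.1 hx, IsRoot.def.1 hy, zero_div]
  obtain ⟨z, hz1, hz2⟩ := exists_deriv_eq_zero hxy hc hxy2
  refine ⟨z, ?_, hz1⟩
  rw [Multiset.mem_toFinset, mem_roots hw, IsRoot, wr_apply]
  have hd : HasDerivAt (fun t => u.eval t / f.eval t)
      ((u.derivative.eval z * f.eval z - u.eval z * f.derivative.eval z) / (f.eval z) ^ 2) z :=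
    (u.hasDerivAt z).div (f.hasDerivAt z) (hf z)
  rw [hd.deriv, div_eq_zero_iff] at hz2
  rcases hz2 with hz2 | hz2
  · simp only [eval_sub, eval_mul]
    linarith
  · exact absurd hz2 (pow_ne_zero _ (hf z))

theorem card_roots_le_wr {f u : ℝ[X]} (hf : ∀ x, f.eval x ≠ 0) (hw : wr f u ≠ 0) :
    Multiset.card u.roots ≤ Multiset.card (wr f u).roots + 1 := by
  have hp : u ≠ 0 := by rintro rfl; simp at hw
  exact calc
    Multiset.card u.roots = ∑ x ∈ u.roots.toFinset, u.roots.count x :=
      (Multiset.toFinset_sum_count_eq _).symm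
    _ = ∑ x ∈ u.roots.toFinset, (u.roots.count x - 1 + 1) :=
      (Eq.symm <| Finset.sum_congr rfl fun _ hx => tsub_add_cancel_of_le <|
        Nat.succ_le_iff.2 <| Multiset.count_pos.2 <| Multiset.mem_toFinset.1 hx)
    _ = (∑ x ∈ u.roots.toFinset, (u.rootMultiplicity x - 1)) + u.roots.toFinset.card := by
      simp only [Finset.sum_add_distrib, Finset.card_eq_sum_ones, count_roots]
    _ ≤ (∑ x ∈ u.roots.toFinset, (wr f u).rootMultiplicity x) +
          (((wr f u).roots.toFinset \ u.roots.toFinset).card + 1) :=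
      (add_le_add
        (Finset.sum_le_sum fun _ _ => wr_rootMultiplicity hp hw _)
        (card_toFinset_le_wr hf hw))
    _ ≤ (∑ x ∈ u.roots.toFinset, (wr f u).roots.count x) +
          ((∑ x ∈ (wr f u).roots.toFinset \ u.roots.toFinset,
            (wr f u).roots.count x) + 1) := by
      simp only [← count_roots, Finset.card_eq_sum_ones]
      gcongr with x hx
      rw [Nat.succ_le_iff, Multiset.count_pos, ← Multiset.mem_toFinset]
      exact (Finset.mem_sdiff.1 hx).1
    _ = Multiset.card (wr f u).roots + 1 := by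
      rw [← add_assoc, ← Finset.sum_union Finset.disjoint_sdiff, Finset.union_sdiff_self_eq_union, ←
        Multiset.toFinset_sum_count_eq, ← Finset.sum_subset Finset.subset_union_right]
      intro x _ hx₂
      simpa only [Multiset.mem_toFinset, Multiset.count_eq_zero] using hx₂

end Pool.Agent.NRZ.Coin
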