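import Pool.Agent.Lib.MP_0d7657_an.Coin.Defs2
import Pool.Agent.Lib.MP_0d7657_an.Rolle
import Pool.Agent.Lib.MP_0d7657_an.Coin.Polya

/-!
The tests imply that the operator does not increase the number of non-real zeros.
-/

set_option autoImplicit false

namespace Pool.Agent.NRZ.Coin

open Polynomial Filter Topology

lemma even_Zc (p : ℝ[X]) : Even (Zc p) := by
  by_cases hp : p = 0
  · subst hp; simp [Zc]
  revert hp
  refine WfDvdMonoid.induction_on_irreducible p ?_ ?_ ?_
  · intro h; exact absurd rfl h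
  · intro u hu _
    have h3 : u.natDegree = 0 := natDegree_eq_zero_of_isUnit hu
    rw [Zc_of_natDegree_le_one (by omega)]
    exact Even.zero
  · intro a i ha hi ih _
    rw [Zc_mul hi.ne_zero ha]
    refine Even.add ?_ (ih ha)
    have hd := hi.natDegree_le_two
    have hpos : 0 < i.natDegree := hi.natDegree_pos
    rcases Nat.lt_or_ge i.natDegree 2 with h | h
    · rw [Zc_of_natDegree_le_one (by omega)]; exact Even.zero
    · rw [Zc_irreducible hi (by omega)]; exact even_two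

lemma Zc_le_of_dvd {p q : ℝ[X]} (h : p ∣ q) (hq : q ≠ 0) : Zc p ≤ Zc q := by
  obtain ⟨c, rfl⟩ := h
  rw [Zc_mul (left_ne_zero_of_mul hq) (right_ne_zero_of_mul hq)]
  omega

lemma exists_quadratic {q : ℝ[X]} (hq : q ≠ 0) (h : 0 < Zc q) : ∃ g : ℝ[X], g.Monic ∧ g ∣ q ∧
    g.natDegree = 2 ∧ Zc g = 2 := by
  revert hq h
  refine WfDvdMonoid.induction_on_irreducible q ?_ ?_ ?_
  · intro h; exact absurd rfl h
  · intro u hu _ h
    have h3 : u.natDegree = 0 := natDegree_eq_zero_of_isUnit hu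
    rw [Zc_of_natDegree_le_one (by omega)] at h
    omega
  · intro a i ha hi ih _ h
    rw [Zc_mul hi.ne_zero ha] at h
    by_cases hd : i.natDegree = 2
    · have hlc : i.leadingCoeff⁻¹ ≠ 0 := inv_ne_zero (leadingCoeff_ne_zero.2 hi.ne_zero)
      refine ⟨C i.leadingCoeff⁻¹ * i, ?_, ?_, ?_, ?_⟩
      · rw [mul_comm]; exact monic_mul_leadingCoeff_inv hi.ne_zero
      · refine Dvd.dvd.mul_right ?_ _
        refine ⟨C i.leadingCoeff, ?_⟩
        have : C i.leadingCoeff⁻¹ * C i.leadingCoeff = (1 : ℝ[X]) := by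
          rw [← C_mul, inv_mul_cancel₀ (leadingCoeff_ne_zero.2 hi.ne_zero), C_1]
        calc i = (C i.leadingCoeff⁻¹ * C i.leadingCoeff) * i := by rw [this, one_mul]
          _ = _ := by ring
      · rw [natDegree_C_mul hlc]; exact hd
      · rw [Zc_C_mul hlc]; exact Zc_irreducible hi hd
    · have h4 : Zc i = 0 := by
        apply Zc_of_natDegree_le_one
        have := hi.natDegree_le_two
        omega
      obtain ⟨g, h5, h6, h7, h8⟩ := ih ha (by omega)
      exact ⟨g, h5, Dvd.dvd.mul_left h6 _, h7, h8⟩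

lemma exists_core {q : ℝ[X]} (hq : q ≠ 0) (k : ℕ) (hk : 2 * k ≤ Zc q) : ∃ g : ℝ[X], g.Monic ∧
    g ∣ q ∧ g.natDegree = 2 * k ∧ Zc g = 2 * k := by
  induction k with
  | zero => exact ⟨1, monic_one, one_dvd _, by simp, by simpa using Zc_C 1⟩
  | succ k ih =>
    obtain ⟨g, hg1, ⟨c, hc⟩, hg3, hg4⟩ := ih (by omega)
    have hc0 : c ≠ 0 := by rintro rfl; rw [mul_zero] at hc; exact hq hc
    have h1 : Zc q = Zc g + Zc c := by rw [hc]; exact Zc_mul hg1.ne_zero hc0
    obtain ⟨i, hi1, hi2, hi3, hi4⟩ := exists_quadratic hc0 (by omega)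
    refine ⟨g * i, hg1.mul hi1, ?_, ?_, ?_⟩
    · rw [hc]; exact mul_dvd_mul_left g hi2
    · rw [natDegree_mul hg1.ne_zero hi1.ne_zero]; omega
    · rw [Zc_mul hg1.ne_zero hi1.ne_zero]; omega

lemma natDegree_PiN {m : ℕ} (p : PiN m) : (p : ℝ[X]).natDegree ≤ m := by
  have := mem_degreeLT.1 p.2
  by_cases h : (p : ℝ[X]) = 0
  · rw [h]; simp
  · have h2 := (natDegree_lt_iff_degree_lt h).2 this
    omega

lemma mem_PiN {m : ℕ} {p : ℝ[X]} (h : p.natDegree ≤ m) : p ∈ PiN m := by
  rw [mem_degreeLT]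
  exact lt_of_le_of_lt degree_le_natDegree (by exact_mod_cast Nat.lt_succ_of_le h)

lemma finrank_PiN (m : ℕ) : Module.finrank ℝ (PiN m) = m + 1 := by
  rw [(degreeLTEquiv ℝ (m + 1)).finrank_eq, Module.finrank_fin_fun]

variable {m n : ℕ}

/-- The tests. -/
def PtT (r d : ℕ) (A : PiN m →ₗ[ℝ] PiN n) : Prop :=
  ∀ (s : ℕ) (y : ℝ) (B : Multiset ℝ) (h : ℝ[X]) (p : PiN m), s + r + d ≤ m →
    Multiset.card B = d → h.natDegree ≤ r →
    (p : ℝ[X]) = (B.map fun b => X - C b).prod * (X - C y) ^ s * h → A p ≠ 0 →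
    Zc (A p : ℝ[X]) < r

theorem level_inj {r : ℕ} (hr : Odd r) (hrm : r + 1 ≤ m) (A : PiN m →ₗ[ℝ] PiN n)
    (hinj : Function.Injective A) (h2 : PtT r 0 A) (p : PiN m) (hp : p ≠ 0)
    (hpr : Zc (p : ℝ[X]) < r) : Zc (A p : ℝ[X]) < r := by
  by_contra hcon
  push Not at hcon
  have hq : A p ≠ 0 := fun h => hp (hinj (by rw [h, map_zero]))
  have hq' : (A p : ℝ[X]) ≠ 0 := fun h => hq (Subtype.ext h)
  have hKe : Even (Zc (A p : ℝ[X])) := even_Zc _
  obtain ⟨k, hk⟩ : ∃ k, r + 1 = 2 * k := by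
    obtain ⟨t, ht⟩ := hr
    exact ⟨t + 1, by omega⟩
  have hK2 : 2 * k ≤ Zc (A p : ℝ[X]) := by
    obtain ⟨t, ht⟩ := hKe
    omega
  obtain ⟨g, hgm, hgd, hgn, hgz⟩ := exists_core hq' k hK2
  -- the space of all `u` with `g ∣ A u`
  let φ : PiN m →ₗ[ℝ] ℝ[X] := (modByMonicHom g) ∘ₗ (PiN n).subtype ∘ₗ A
  have hφ : ∀ u : PiN m, φ u = (A u : ℝ[X]) %ₘ g := fun u => rfl
  set U : Submodule ℝ ℝ[X] := (LinearMap.ker φ).map (PiN m).subtype with hU
  have hmemU : ∀ u : PiN m, g ∣ (A u : ℝ[X]) → (u : ℝ[X]) ∈ U := by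
    intro u hu
    refine ⟨u, ?_, rfl⟩
    rw [SetLike.mem_coe, LinearMap.mem_ker, hφ]
    exact (modByMonic_eq_zero_iff_dvd hgm).2 hu
  have hUmem : ∀ u ∈ U, ∃ v : PiN m, (v : ℝ[X]) = u ∧ g ∣ (A v : ℝ[X]) := by
    rintro u ⟨v, hv, rfl⟩
    refine ⟨v, rfl, ?_⟩
    rw [SetLike.mem_coe, LinearMap.mem_ker, hφ] at hv
    exact (modByMonic_eq_zero_iff_dvd hgm).1 hv
  have hr1 : Module.finrank ℝ (LinearMap.range φ) ≤ 2 * k := by
    have hle : LinearMap.range φ ≤ degreeLT ℝ (2 * k) := by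
      rintro _ ⟨u, rfl⟩
      rw [hφ, mem_degreeLT]
      refine (degree_modByMonic_lt _ hgm).trans_le ?_
      rw [degree_eq_natDegree hgm.ne_zero, hgn]
    have hfd : FiniteDimensional ℝ (degreeLT ℝ (2 * k)) :=
      (degreeLTEquiv ℝ (2 * k)).symm.finiteDimensional
    calc Module.finrank ℝ (LinearMap.range φ) ≤ Module.finrank ℝ (degreeLT ℝ (2 * k)) :=
          Submodule.finrank_mono hle
      _ = 2 * k := by rw [(degreeLTEquiv ℝ (2 * k)).finrank_eq, Module.finrank_fin_fun]
  have hr2 := LinearMap.finrank_range_add_finrank_ker φ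
  rw [finrank_PiN] at hr2
  have hr3 : Module.finrank ℝ U = Module.finrank ℝ (LinearMap.ker φ) :=
    Submodule.finrank_map_subtype_eq _ _
  have hfin := polya (m - 2 * k) m U (by omega) ?_ (by omega) ?_ (p : ℝ[X]) (hmemU p hgd)
    (fun h => hp (Subtype.ext h))
  · have h3 := Zc_add_card_roots (p := (p : ℝ[X])) (fun h => hp (Subtype.ext h))
    omega
  · intro u hu
    obtain ⟨v, rfl, -⟩ := hUmem u hu
    exact natDegree_PiN v
  · rintro s y hs u hu hu0 hdeg ⟨h, hh⟩
    obtain ⟨v, rfl, hv⟩ := hUmem u hu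
    have hv0 : v ≠ 0 := fun h0 => hu0 (by rw [h0]; rfl)
    have hAv : A v ≠ 0 := fun h0 => hv0 (hinj (by rw [h0, map_zero]))
    have hh0 : h ≠ 0 := by rintro rfl; rw [mul_zero] at hh; exact hu0 hh
    have hnd : (v : ℝ[X]).natDegree = s + h.natDegree := by
      rw [hh, natDegree_mul (pow_ne_zero _ (X_sub_C_ne_zero y)) hh0, natDegree_pow,
        natDegree_X_sub_C, mul_one]
    have h4 := h2 s y 0 h v (by omega) rfl (by omega) (by rw [hh]; simp) hAv
    have h5 := Zc_le_of_dvd hv (fun h0 => hAv (Subtype.ext h0))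
    omega

lemma mulX_mem {m : ℕ} (b : ℝ) (p : PiN m) : (X - C b) * (p : ℝ[X]) ∈ PiN (m + 1) := by
  refine mem_PiN (natDegree_mul_le.trans ?_)
  rw [natDegree_X_sub_C]
  have := natDegree_PiN p
  omega

/-- Multiplication by `X - b` as a map `π_m → π_{m+1}`. -/
noncomputable def mulX (m : ℕ) (b : ℝ) : PiN m →ₗ[ℝ] PiN (m + 1) where
  toFun p := ⟨(X - C b) * (p : ℝ[X]), mulX_mem b p⟩
  map_add' p q := by
    apply Subtype.ext
    simp only [Submodule.coe_add]
    ring
  map_smul' c p := by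
    apply Subtype.ext
    simp only [Submodule.coe_smul, RingHom.id_apply, smul_eq_C_mul]
    ring

lemma coe_mulX (b : ℝ) (p : PiN m) : (mulX m b p : ℝ[X]) = (X - C b) * (p : ℝ[X]) := rfl

lemma mulX_injective (b : ℝ) : Function.Injective (mulX m b) := by
  intro p q hpq
  have h := congrArg Subtype.val hpq
  rw [coe_mulX, coe_mulX] at h
  exact Subtype.ext (mul_left_cancel₀ (X_sub_C_ne_zero b) h)

lemma ker_map_lt (A : PiN (m + 1) →ₗ[ℝ] PiN n) (ν : PiN (m + 1)) (hν : A ν = 0)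
    (b : ℝ) (hb : (ν : ℝ[X]).eval b ≠ 0) :
    (LinearMap.ker (A ∘ₗ mulX m b)).map (mulX m b) < LinearMap.ker A := by
  refine lt_of_le_of_ne ?_ ?_
  · intro q hq
    obtain ⟨p, hp, hpq⟩ := Submodule.mem_map.1 hq
    rw [LinearMap.mem_ker, LinearMap.comp_apply, hpq] at hp
    exact LinearMap.mem_ker.2 hp
  · intro heq
    have h1 : ν ∈ (LinearMap.ker (A ∘ₗ mulX m b)).map (mulX m b) := by
      rw [heq]; exact LinearMap.mem_ker.2 hν
    obtain ⟨p, -, hp⟩ := Submodule.mem_map.1 h1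
    apply hb
    rw [← hp, coe_mulX, eval_mul, eval_sub, eval_X, eval_C, sub_self, zero_mul]

lemma finrank_ker_comp_mulX {d : ℕ} (A : PiN (m + 1) →ₗ[ℝ] PiN n)
    (hd : Module.finrank ℝ (LinearMap.ker A) ≤ d + 1) (ν : PiN (m + 1)) (hν : A ν = 0)
    (b : ℝ) (hb : LinearMap.ker A = ⊥ ∨ (ν : ℝ[X]).eval b ≠ 0) :
    Module.finrank ℝ (LinearMap.ker (A ∘ₗ mulX m b)) ≤ d := by
  rcases hb with hb | hb
  · have h2 : LinearMap.ker (A ∘ₗ mulX m b) = ⊥ := by
      rw [LinearMap.ker_eq_bot] at hb ⊢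
      intro p q hpq
      exact mulX_injective b (hb hpq)
    rw [h2, finrank_bot]
    exact Nat.zero_le _
  · have h1 : Module.finrank ℝ ((LinearMap.ker (A ∘ₗ mulX m b)).map (mulX m b)) =
        Module.finrank ℝ (LinearMap.ker (A ∘ₗ mulX m b)) :=
      (Submodule.equivMapOfInjective (mulX m b) (mulX_injective b) _).finrank_eq.symm
    have h3 := Submodule.finrank_lt_finrank_of_lt (ker_map_lt A ν hν b hb)
    omega

theorem level {r : ℕ} (hr : Odd r) (d : ℕ) : ∀ (m : ℕ) (A : PiN m →ₗ[ℝ] PiN n),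
    Module.finrank ℝ (LinearMap.ker A) ≤ d → r + 1 + d ≤ m → PtT r d A →
    ∀ p : PiN m, Zc (p : ℝ[X]) < r → Zc (A p : ℝ[X]) < r := by
  have hr0 : 0 < r := hr.pos
  induction d with
  | zero =>
    intro m A hd hrm h2 p hpr
    have hinj : Function.Injective A := by
      rw [← LinearMap.ker_eq_bot]
      exact Submodule.finrank_eq_zero.1 (by omega)
    by_cases hp : p = 0
    · subst hp
      rw [map_zero]
      have : Zc ((0 : PiN n) : ℝ[X]) = 0 := by simp [Zc]
      omega
    · exact level_inj hr hrm A hinj h2 p hp hpr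
  | succ d ih =>
    intro m A hd hrm h2 p hpr
    by_cases hAp : A p = 0
    · rw [hAp]
      have : Zc ((0 : PiN n) : ℝ[X]) = 0 := by simp [Zc]
      omega
    have hp0 : p ≠ 0 := by rintro rfl; exact hAp (map_zero _)
    obtain ⟨m, rfl⟩ : ∃ m', m = m' + 1 := ⟨m - 1, by omega⟩
    -- the reduced operators satisfy the conclusion
    have hred : ∀ b : ℝ, Module.finrank ℝ (LinearMap.ker (A ∘ₗ mulX m b)) ≤ d →
        ∀ g : PiN m, Zc (g : ℝ[X]) < r → Zc (A (mulX m b g) : ℝ[X]) < r := by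
      intro b hb g hg
      refine ih m (A ∘ₗ mulX m b) hb (by omega) ?_ g hg
      intro s y B h q hs hB hh hq hAq
      refine h2 s y (b ::ₘ B) h (mulX m b q) (by omega) (by simp [hB]) hh ?_ hAq
      rw [coe_mulX, hq, Multiset.map_cons, Multiset.prod_cons]
      ring
    obtain ⟨ν, hν, hbad⟩ : ∃ ν : PiN (m + 1), A ν = 0 ∧
        (LinearMap.ker A = ⊥ ∨ (ν : ℝ[X]) ≠ 0) := by
      by_cases hk : LinearMap.ker A = ⊥
      · exact ⟨0, map_zero _, Or.inl hk⟩
      · obtain ⟨ν, hν, hν0⟩ := Submodule.exists_mem_ne_zero_of_ne_bot hk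
        exact ⟨ν, hν, Or.inr fun h => hν0 (Subtype.ext h)⟩
    have hZ : Zc (p : ℝ[X]) ≤ m := by omega
    obtain ⟨α, β, g, hαβ, hg, hpg⟩ := exists_lin_factor (fun h => hp0 (Subtype.ext h))
      (natDegree_PiN p) hZ
    have hlin : (C α * X + C β : ℝ[X]) ≠ 0 := by
      rintro h0; rw [h0, zero_mul] at hpg; exact hp0 (Subtype.ext hpg)
    have hg0 : g ≠ 0 := by
      rintro rfl; rw [mul_zero] at hpg; exact hp0 (Subtype.ext hpg)
    have hZg : Zc (p : ℝ[X]) = Zc g := by
      rw [hpg, Zc_mul hlin hg0, Zc_of_natDegree_le_one (natDegree_linear_le), zero_add]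
    -- the perturbed factor
    let e : PiN m := ⟨g, mem_PiN hg⟩
    let e1 : PiN (m + 1) := ⟨X * g, mem_PiN (by
      refine natDegree_mul_le.trans ?_
      rw [natDegree_X]; omega)⟩
    let e2 : PiN (m + 1) := ⟨g, mem_PiN (by omega)⟩
    have hpe : p = α • e1 + β • e2 := by
      apply Subtype.ext
      rw [hpg]
      simp only [Submodule.coe_add, Submodule.coe_smul, e1, e2, smul_eq_C_mul]
      ring
    set t : ℕ → ℝ := fun j => 1 / ((j : ℝ) + 1) with ht
    have ht0 : Tendsto t atTop (𝓝 0) := tendsto_one_div_add_atTop_nhds_zero_nat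
    have htp : ∀ j, t j ≠ 0 := fun j => by rw [ht]; positivity
    have key : ∀ u v w z : ℝ, (u ≠ 0 ∨ v ≠ 0) → ∀ᶠ j in atTop, u + t j * v ≠ 0 := by
      intro u v w z huv
      rcases eq_or_ne u 0 with hu | hu
      · have hv : v ≠ 0 := by
          rcases huv with h | h
          · exact absurd hu h
          · exact h
        filter_upwards with j
        rw [hu, zero_add]
        exact mul_ne_zero (htp j) hv
      · have hlim : Tendsto (fun j => u + t j * v) atTop (𝓝 u) := by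
          have := (ht0.mul_const v).const_add u
          simpa using this
        exact hlim.eventually_ne hu
    have hα : ∀ᶠ j in atTop, α + t j * β ≠ 0 := by
      refine key α β 0 0 ?_
      by_contra hcon
      push Not at hcon
      rw [hcon.1, hcon.2] at hαβ; norm_num at hαβ
    have hroots : ∀ᶠ j in atTop, ∀ b ∈ (ν : ℝ[X]).roots.toFinset,
        (α * b + β) + t j * (β * b - α) ≠ 0 := by
      rw [Finset.eventually_all]
      intro b _
      refine key _ _ 0 0 ?_
      by_contra hcon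
      push Not at hcon
      have h5 : (α ^ 2 + β ^ 2) * (b ^ 2 + 1) = (α * b + β) ^ 2 + (β * b - α) ^ 2 := by ring
      rw [hcon.1, hcon.2, hαβ] at h5
      nlinarith [sq_nonneg b]
    obtain ⟨J, hJ⟩ := eventually_atTop.1 (hα.and hroots)
    rw [hZg] at hpr
    refine lt_of_le_of_lt (b := r - 1) ?_ (by omega)
    refine Zc_closed n (r - 1) (fun j => (A ((α + t (j + J) * β) • e1 + (β - t (j + J) * α) • e2) :
      ℝ[X])) (fun j => natDegree_PiN _) ?_ (A p : ℝ[X]) (fun h => hAp (Subtype.ext h)) ?_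
    · intro j
      obtain ⟨h6, h7⟩ := hJ (j + J) (by omega)
      set αj := α + t (j + J) * β with hαj
      set βj := β - t (j + J) * α with hβj
      have h8 : αj • e1 + βj • e2 = αj • mulX m (-βj / αj) e := by
        apply Subtype.ext
        simp only [Submodule.coe_add, Submodule.coe_smul, coe_mulX, e, e1, e2, smul_eq_C_mul]
        have h9 : C αj * C (-βj / αj) = (-C βj : ℝ[X]) := by
          rw [← C_mul, ← C_neg]; congr 1; field_simp
        calc C αj * (X * g) + C βj * g = C αj * X * g - (-C βj) * g := by ring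
          _ = C αj * X * g - (C αj * C (-βj / αj)) * g := by rw [h9]
          _ = _ := by ring
      rw [h8, map_smul]
      have h10 : Zc ((αj • A (mulX m (-βj / αj) e) : PiN n) : ℝ[X]) =
          Zc (A (mulX m (-βj / αj) e) : ℝ[X]) := by
        rw [Submodule.coe_smul, smul_eq_C_mul, Zc_C_mul h6]
      rw [h10]
      refine Nat.le_sub_one_of_lt (hred _ (finrank_ker_comp_mulX A hd ν hν _ ?_) e hpr)
      rcases hbad with hb | hb
      · exact Or.inl hb
      · right
        intro h11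
        have h12 := h7 (-βj / αj) (by rw [Multiset.mem_toFinset, mem_roots hb]; exact h11)
        apply h12
        have h17 : α * (-βj / αj) + β + t (j + J) * (β * (-βj / αj) - α) =
            αj * (-βj / αj) + βj := by rw [hαj, hβj]; ring
        rw [h17, mul_div_cancel₀ _ h6]
        ring
    · intro k
      have h13 : ∀ j, ((A ((α + t (j + J) * β) • e1 + (β - t (j + J) * α) • e2) : ℝ[X])).coeff k =
          (α + t (j + J) * β) * (A e1 : ℝ[X]).coeff k +
            (β - t (j + J) * α) * (A e2 : ℝ[X]).coeff k := by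
        intro j
        rw [map_add, map_smul, map_smul, Submodule.coe_add, Submodule.coe_smul, Submodule.coe_smul,
          coeff_add, coeff_smul, coeff_smul, smul_eq_mul, smul_eq_mul]
      have h14 : (A p : ℝ[X]).coeff k = α * (A e1 : ℝ[X]).coeff k + β * (A e2 : ℝ[X]).coeff k := by
        rw [hpe, map_add, map_smul, map_smul, Submodule.coe_add, Submodule.coe_smul,
          Submodule.coe_smul, coeff_add, coeff_smul, coeff_smul, smul_eq_mul, smul_eq_mul]
      rw [h14]
      simp only [h13]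
      have ht' : Tendsto (fun j => t (j + J)) atTop (𝓝 0) := (tendsto_add_atTop_iff_nat J).2 ht0
      have h15 : Tendsto (fun j => α + t (j + J) * β) atTop (𝓝 α) := by
        have := (ht'.mul_const β).const_add α
        simpa using this
      have h16 : Tendsto (fun j => β - t (j + J) * α) atTop (𝓝 β) := by
        have := (ht'.mul_const α).const_sub β
        simpa using this
      exact (h15.mul_const _).add (h16.mul_const _)

end Pool.Agent.NRZ.Coin
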